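import Pool.Agent.Q277.RB.Main

/-!
# The maximum number of rainbow solutions of `x + y < z` in three colours

Colour `[1, n]` with three colours and count the solutions of `x + y < z`, `x ≤ y`, whose three members have three
different colours. The maximum `RM n` of this number is `c n ^ 3 + O(n ^ 2)` with `c = (3 √3 - 5) / 6`: the intervals are
asymptotically optimal. The error is at most `n ^ 2` for every `n`.

Sketch of the proof. The three distinct numbers `x < y < z` of a rainbow triple are a solution or the sides of a (maybe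
degenerate) triangle. The deletion of the first element of a class, after which the other numbers are moved together, does
not increase the number of the rainbow triangles; so the number of the triangles is at least the minimum for three classes
of size `a` in `[1, 3 a]`, where `a` is the size of the smallest class. This minimum is `a ^ 3 / 6 - O(a ^ 2)`: let `A` be
the class with the largest part of `[1, a]` and `k` the number of its elements in `J = (a, 3 a]`. If `3 k ≥ a`, the rainbow
triangles in `J` suffice; if `3 k ≤ a`, one adds the triangles with one side in `A ∩ [1, a]` and two in `J`; they are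
estimated by a rearrangement inequality for the two other classes, a bound `v ^ 2 / 6` for the pairs of two colours with a
sum `≤ v`, and the positive kernel `|u + v| - |u - v|` on the elements of `A` in `J`.
-/

set_option autoImplicit false

namespace Pool.Agent.Results.MP_21c964_co.RainbowConstant

open Finset Filter

/-- The rainbow solutions of `x + y < z`, `x ≤ y`, in `[1, n]` for the colouring `χ`: the triples `(x, y, z)` of numbers of
`[1, n]` with `x ≤ y` and `x + y < z` whose three colours are pairwise different. -/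
def Solutions (n : ℕ) (χ : ℕ → Fin 3) : Finset (ℕ × ℕ × ℕ) :=
  (Icc 1 n ×ˢ Icc 1 n ×ˢ Icc 1 n).filter fun s => s.1 ≤ s.2.1 ∧ s.1 + s.2.1 < s.2.2 ∧
    χ s.1 ≠ χ s.2.1 ∧ χ s.1 ≠ χ s.2.2 ∧ χ s.2.1 ≠ χ s.2.2

/-- `RM_3(n)`: the largest number of rainbow solutions in `[1, n]`, over all colourings with three colours. -/
noncomputable def RM (n : ℕ) : ℕ := sSup (Set.range fun χ : ℕ → Fin 3 => (Solutions n χ).card)

lemma bdd (n : ℕ) : BddAbove (Set.range fun χ : ℕ → Fin 3 => (Solutions n χ).card) := by
  refine ⟨(Icc 1 n ×ˢ Icc 1 n ×ˢ Icc 1 n).card, ?_⟩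
  rintro _ ⟨χ, rfl⟩
  exact card_le_card (filter_subset _ _)

/-- **The conjecture is true**: `RM_3(n) = ((3 √3 - 5) / 6 + o(1)) n ^ 3`; the error is at most `n ^ 2` for every `n`. -/
theorem result :
    (∀ n : ℕ, |(RM n : ℝ) - (3 * √3 - 5) / 6 * (n : ℝ) ^ 3| ≤ (n : ℝ) ^ 2) ∧
    Tendsto (fun n : ℕ => (RM n : ℝ) / (n : ℝ) ^ 3) atTop (nhds ((3 * √3 - 5) / 6)) := by
  have h : ∀ n : ℕ, |(RM n : ℝ) - (3 * √3 - 5) / 6 * (n : ℝ) ^ 3| ≤ (n : ℝ) ^ 2 := by
    intro n
    rw [abs_le]
    constructor
    · obtain ⟨χ, hχ⟩ := Pool.Agent.Q277.RB.lower n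
      have h1 : (Solutions n χ).card ≤ RM n := le_csSup (bdd n) ⟨χ, rfl⟩
      have h2 : ((Solutions n χ).card : ℝ) ≤ RM n := by exact_mod_cast h1
      have h3 : (3 * √3 - 5) / 6 * (n : ℝ) ^ 3 - (n : ℝ) ^ 2 ≤ (Solutions n χ).card := hχ
      linarith
    · obtain ⟨χ, hχ⟩ : ∃ χ : ℕ → Fin 3, (Solutions n χ).card = RM n :=
        Nat.sSup_mem (Set.range_nonempty _) (bdd n)
      have h1 : ((Solutions n χ).card : ℝ) ≤ (3 * √3 - 5) / 6 * (n : ℝ) ^ 3 + (n : ℝ) ^ 2 :=
        Pool.Agent.Q277.RB.upper n χ
      rw [hχ] at h1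
      linarith
  refine ⟨h, ?_⟩
  rw [tendsto_iff_norm_sub_tendsto_zero]
  refine squeeze_zero' (Eventually.of_forall fun _ => norm_nonneg _) ?_
    (tendsto_one_div_atTop_nhds_zero_nat (𝕜 := ℝ))
  filter_upwards [eventually_gt_atTop 0] with n hn
  have hn' : (0 : ℝ) < n := by exact_mod_cast hn
  have h1 : (RM n : ℝ) / (n : ℝ) ^ 3 - (3 * √3 - 5) / 6 =
      ((RM n : ℝ) - (3 * √3 - 5) / 6 * (n : ℝ) ^ 3) / (n : ℝ) ^ 3 := by
    field_simp
  rw [h1, Real.norm_eq_abs, abs_div, abs_of_pos (pow_pos hn' 3), div_le_div_iff₀ (pow_pos hn' 3) hn']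
  have h2 := mul_le_mul_of_nonneg_right (h n) hn'.le
  calc _ ≤ (n : ℝ) ^ 2 * n := h2
    _ = 1 * (n : ℝ) ^ 3 := by ring

end Pool.Agent.Results.MP_21c964_co.RainbowConstant
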